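import Pool.Agent.Lib.MP_95edb1_lc.Upper3

set_option autoImplicit false

/-!
# The spectacles networks do not minimise the normalised search value

We disprove the conjecture of Alpern and Asic that `v(Q, O) / μ(Q) ≥ σ` for every network `Q` and
every starting point `O`, where `σ` is the lower limit of `v(S_δ) / (2 + δ)` as `δ → 0⁺`.

* Lower bound `σ ≥ 11 / 12` (`sigmaLower_ge`).  The hider picks one of the two circles at random
  and a pair of antipodal points `A`, `P`, where `A` is a random point very close to the node.  It
  waits at `P` until time `1 / 2` and then makes half tours `P → A → P → ⋯`, each of duration
  `1 / 2` and on a random side.
* Upper bound (`ratio_chain_lt`).  Take four circles in a row, consecutive ones joined by tiny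
  bridges at antipodal points, and let `O` be the midpoint of the middle bridge.  The searcher
  sweeps the chain back and forth, using a random arc of each circle and starting in a random
  direction, but each time it reaches the last bridge before an end of the chain it waits there,
  with probability `1 / 16`, for two time units (the time needed to go to the end and come back).
  The resulting ratio is at most `0.9166 < 11 / 12`.  The hider's best reply is bounded by a
  potential argument with a finite table of `270` vectors in dimension `4`, checked by the kernel.
-/

namespace Pool.Agent.Results.MP_95edb1_lc.SpectaclesNotMinimal

open Pool.Agent.MP_95edb1_lc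

/-- There is a network `Q` with a starting point `O` such that, for every hider speed `w ≥ 1`, the
upper value of the game on `(Q, O)` divided by the total length of `Q` is smaller than the lower
limit, for `δ → 0⁺`, of the lower value of the game on `S_δ` divided by `2 + δ`. -/
theorem result : ∃ (Q : Network) (O : Q.Pt), ∀ w : ℝ, 1 ≤ w →
    Q.upperValue O w / ENNReal.ofReal Q.totalLength < sigmaLower w :=
  ⟨chain, cmid, fun w hw => (ratio_chain_lt w).trans_le (sigmaLower_ge hw)⟩

end Pool.Agent.Results.MP_95edb1_lc.SpectaclesNotMinimal
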